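import Pool.Agent.N867.AS.R11

/-!
# Eigenvalues of Frobenius on the Artin–Schreier surfaces `y^p - y = f(x, t)` are simple
-/

set_option autoImplicit false

namespace Pool.Agent.Results.MP_1fe969_ag.ArtinSchreierSurfaces

open Polynomial

/-- All monomials `x^m t^n` of `f ∈ k[t][x]` (outer variable `x`, inner variable `t`) satisfy
`b m + a n ≤ g a b`, and those with equality make up `∑_{r ≤ g} Φ_r x^{a r} t^{b (g - r)}`, where
`Φ_r` is the coefficient of `X^r` in `Φ`. -/
structure Leads {k : Type} [Field k] (a b g : ℕ) (Φ : k[X]) (f : k[X][X]) : Prop where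
  wt : ∀ m n, (f.coeff m).coeff n ≠ 0 → b * m + a * n ≤ g * (a * b)
  top : ∀ r ≤ g, (f.coeff (a * r)).coeff (b * (g - r)) = Φ.coeff r

/-- The pairs `u = (u_1, u_2)` of positive integers with `b u_1 + a u_2 = w`. -/
abbrev Lattice (a b w : ℕ) : Type :=
  {u : Fin (w + 1) × Fin (w + 1) //
    0 < (u.1 : ℕ) ∧ 0 < (u.2 : ℕ) ∧ b * (u.1 : ℕ) + a * (u.2 : ℕ) = w}

/-- The matrix with entries the coefficients of `X^{(p v_1 - u_1)/a}` in `Φ^n`, for `u` and `v` in
`Lattice a b w`. -/
noncomputable def hasseWitt {k : Type} [Field k] (p a b w n : ℕ) (Φ : k[X]) :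
    Matrix (Lattice a b w) (Lattice a b w) k :=
  Matrix.of fun u v => (Φ ^ n).coeff ((p * (v.1.1 : ℕ) - (u.1.1 : ℕ)) / a)

/-- For every `w` with `0 < w < g a b` the matrix `hasseWitt` of `Φ^{(p-1)w/(gab)}` is
invertible. -/
def Ordinary {k : Type} [Field k] (p a b g : ℕ) (Φ : k[X]) : Prop :=
  ∀ w, 0 < w → w < g * (a * b) → (hasseWitt p a b w ((p - 1) * w / (g * (a * b))) Φ).det ≠ 0

/-- `Φ = X^g - c` with `c ≠ 0`. -/
def Diagonal {k : Type} [Field k] (g : ℕ) (Φ : k[X]) : Prop :=
  ∃ c : k, c ≠ 0 ∧ Φ = X ^ g - C c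

/-- The product `A A^{(p)} A^{(p^2)} ⋯ A^{(p^{j-1})}`, where `A^{(p^i)}` is the matrix of the
`p^i`-th powers of the entries of `A`. -/
def frobPower {k : Type} [Field k] {ι : Type} [Fintype ι] [DecidableEq ι] (p : ℕ)
    (A : Matrix ι ι k) : ℕ → Matrix ι ι k
  | 0 => 1
  | j + 1 => frobPower p A j * A.map fun z => z ^ p ^ j

/-- Let `k` have `p^s` elements, let `0 < w < g a b`, and let `A` be the matrix `hasseWitt` of
`Φ^{(p-1)w/(gab)}`.  Either there is at most one pair of positive integers with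
`b u_1 + a u_2 = w`, or the polynomial `det (1 - T A A^{(p)} ⋯ A^{(p^{s-1})})` is separable. -/
def Distinct {k : Type} [Field k] (p s a b g : ℕ) (Φ : k[X]) : Prop :=
  ∀ w, 0 < w → w < g * (a * b) → Subsingleton (Lattice a b w) ∨
    (frobPower p (hasseWitt p a b w ((p - 1) * w / (g * (a * b))) Φ) s).charpolyRev.Separable

/-- The value `f(x, t)` at a point with coordinates in an algebraic closure of `k`. -/
noncomputable def value {k : Type} [Field k] (f : k[X][X]) (t x : AlgebraicClosure k) :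
    AlgebraicClosure k :=
  f.eval₂ (eval₂RingHom (algebraMap k (AlgebraicClosure k)) t) x

/-- The number of pairs `(t, x)` with coordinates in the field of `p^N` elements
`{z : z^{p^N} = z}` such that the trace `∑_{i < N} f(x, t)^{p^i}` is the element `c` of the prime
field. -/
noncomputable def traceCount {k : Type} [Field k] (p : ℕ) (f : k[X][X]) (N c : ℕ) : ℕ :=
  Nat.card {v : AlgebraicClosure k × AlgebraicClosure k //
    v.1 ^ p ^ N = v.1 ∧ v.2 ^ p ^ N = v.2 ∧
      ∑ i ∈ Finset.range N, (value f v.1 v.2) ^ p ^ i = (c : AlgebraicClosure k)}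

/-- The character sum `∑ ψ (Tr f(x, t))` over the pairs `(t, x)` with coordinates in the field of
`p^N` elements, where `ψ (c) = ζ^c`. -/
noncomputable def charSum {k : Type} [Field k] (p : ℕ) (f : k[X][X]) (ζ : ℂ) (N : ℕ) : ℂ :=
  ∑ c ∈ Finset.range p, (traceCount p f N c : ℂ) * ζ ^ c

/-- `L(T) = exp (-∑_{m ≥ 1} S_m T^m / m)`, where `S_m` is the character sum over the extension of
degree `m` of the field of `p^s` elements: `L(0) = 1` and `T L' = - L ∑_{m ≥ 1} S_m T^m`. -/
def IsLFunction {k : Type} [Field k] (p s : ℕ) (f : k[X][X]) (ζ : ℂ) (L : ℂ[X]) : Prop :=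
  L.coeff 0 = 1 ∧
    PowerSeries.X * PowerSeries.derivative ℂ (L : PowerSeries ℂ) =
      -((L : PowerSeries ℂ) * PowerSeries.mk fun m =>
        if m = 0 then 0 else charSum p f ζ (s * m))

/-- All roots of `L` have absolute value `1/q`. -/
def Pure (q : ℕ) (L : ℂ[X]) : Prop :=
  ∀ z : ℂ, L.IsRoot z → ‖z‖ * (q : ℝ) = 1

theorem Leads.lead {k : Type} [Field k] {a b g : ℕ} {Φ : k[X]} {f : k[X][X]}
    (h : Leads a b g Φ f) (hΦ : Φ.natDegree = g) : Pool.Agent.N867.AS.Final2.Lead a b g Φ f := by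
  refine ⟨h.wt, ?_⟩
  ext r
  rcases Nat.lt_or_ge g r with hr | hr
  · have h1 : Φ.coeff r = 0 := coeff_eq_zero_of_natDegree_lt (by rw [hΦ]; exact hr)
    rw [h1, Pool.Agent.N867.AS.TV.topPoly, finsetSum_coeff]
    refine Finset.sum_eq_zero fun i hi => ?_
    rw [coeff_C_mul, coeff_X_pow, if_neg, mul_zero]
    have := Finset.mem_range.1 hi
    omega
  · rw [Pool.Agent.N867.AS.RG.top_coeff a b g f hr, h.top r hr]

theorem frobPower_eq {k : Type} [Field k] {ι : Type} [Fintype ι] [DecidableEq ι] (p : ℕ)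
    (A : Matrix ι ι k) (j : ℕ) :
    frobPower p A j = Pool.Agent.N867.AS.OC.FP (fun i => A.map fun z => z ^ p ^ i) j := by
  induction j with
  | zero => rfl
  | succ j ih => rw [frobPower, Pool.Agent.N867.AS.OC.FP, ih]

/-- Let `k` be the field of `q = p^s` elements.  Let `H_1, …, H_e` be distinct monic irreducible
polynomials over `k` with pairwise coprime degrees of sum `g`, such that `Φ = H_1 ⋯ H_e` is ordinary
or of the form `X^g - c`, and distinct, and let `f` have leading form `Φ`.  Let `L` be the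
`L`-function `exp (-∑ S_m T^m / m)` of the character sums
`S_m = ∑ ψ (Tr f(x, t))`, `ψ(c) = ζ^c`, for a primitive `p`-th root of unity `ζ`, and let all its
roots have absolute value `1/q`.  Then `1/q` is a root of `L` of multiplicity at most `e - 1`, and
for all the other roots `z` of `L` either `z` is simple or the sum of the multiplicities of `z` and
`1/q` is at most `e - 1`.  So all roots of `L` are simple if `e ≤ 2`, and all roots of `L` other
than `1/q` are simple if the multiplicity of `1/q` is `e - 1`. -/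
theorem result (p : ℕ) (hp : p.Prime) (k : Type) [Field k] [Fintype k] [CharP k p] (s : ℕ)
    (hs : Fintype.card k = p ^ s) (a b g e : ℕ) (hab : a.Coprime b) (hga : g * a ∣ p - 1)
    (hgb : g * b ∣ p - 1) (H : Fin e → k[X]) (hirr : ∀ i, Irreducible (H i))
    (hmon : ∀ i, (H i).Monic) (hinj : Function.Injective H) (hdeg : ∑ i, (H i).natDegree = g)
    (hcop : ∀ i j, i ≠ j → (H i).natDegree.Coprime (H j).natDegree)
    (hord : Ordinary p a b g (∏ i, H i) ∨ Diagonal g (∏ i, H i))
    (hdist : Distinct p s a b g (∏ i, H i)) (f : k[X][X]) (hf : Leads a b g (∏ i, H i) f)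
    (ζ : ℂ) (hζ : IsPrimitiveRoot ζ p) (L : ℂ[X]) (hL : IsLFunction p s f ζ L)
    (hpure : Pure (Fintype.card k) L) :
    L.rootMultiplicity (1 / (Fintype.card k : ℂ)) ≤ e - 1 ∧
    (∀ z, z ≠ 1 / (Fintype.card k : ℂ) → L.rootMultiplicity z ≤ 1 ∨
      L.rootMultiplicity z + L.rootMultiplicity (1 / (Fintype.card k : ℂ)) ≤ e - 1) ∧
    (e ≤ 2 → ∀ z, L.rootMultiplicity z ≤ 1) ∧
    (L.rootMultiplicity (1 / (Fintype.card k : ℂ)) = e - 1 →
      ∀ z, z ≠ 1 / (Fintype.card k : ℂ) → L.rootMultiplicity z ≤ 1) := by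
  have hp1 : p - 1 ≠ 0 := by
    have := hp.two_le
    omega
  have hga0 : g * a ≠ 0 := fun h => hp1 (by rwa [h, zero_dvd_iff] at hga)
  have hgb0 : g * b ≠ 0 := fun h => hp1 (by rwa [h, zero_dvd_iff] at hgb)
  have hg : g ≠ 0 := left_ne_zero_of_mul hga0
  have ha : a ≠ 0 := right_ne_zero_of_mul hga0
  have hb : b ≠ 0 := right_ne_zero_of_mul hgb0
  have hΦ : (∏ i, H i).natDegree = g := by
    rw [natDegree_prod_of_monic _ _ fun i _ => hmon i, hdeg]
  have hord' : Pool.Agent.N867.AS.LP.OrdP p a b g (∏ i, H i) := by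
    rcases hord with h | ⟨c, hc, h⟩
    · exact h
    · rw [h]
      exact Pool.Agent.N867.AS.LP.ord_diag hp ha hb hab hg
        (Pool.Agent.N867.AS.TV.dvd_M hab hg hga hgb) hc
  have hq : 1 / (Fintype.card k : ℂ) = ((p : ℂ) ^ s)⁻¹ := by
    rw [hs, one_div]
    push_cast
    rfl
  have hmain := Pool.Agent.N867.AS.OC.main2 hp hs hab hga hgb H hirr hmon hinj hΦ hcop hord'
    (fun w hw0 hw => by
      have h := hdist w hw0 hw
      rw [frobPower_eq] at h
      exact h) f (hf.lead hΦ) hζ L hL.1 hL.2 (fun z hz => by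
      have h := hpure z hz
      rw [hs] at h
      push_cast at h
      exact h)
  rw [hq]
  obtain ⟨h1, h2⟩ := hmain
  refine ⟨h1, h2, fun he z => ?_, fun he z hz => ?_⟩
  · by_cases hz : z = ((p : ℂ) ^ s)⁻¹
    · rw [hz]
      omega
    · have := h2 z hz
      omega
  · have := h2 z hz
    omega

end Pool.Agent.Results.MP_1fe969_ag.ArtinSchreierSurfaces
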