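import Pool.Agent.N430.RT.A6

/-!
# The nilpotent part of Frobenius on the second cohomology of fibred surfaces, on average

Let `F` be a finite field of odd characteristic with `q` elements, `f ∈ F[t][x]` monic in `x` of degree
`2 g + 1`, and `A, B ∈ F[t]` of degree less than `N`. Let `X → ℙ¹` be the surface over `F` fibred in
curves `y² = f(x) + A x + B`, and let `H` be the subspace `H¹(ℙ¹, j_* R¹π_* ℚ_ℓ)` of `H²(X)`; on the
complement of `H`, which is spanned by the classes of algebraic curves, Frobenius is semisimple.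

Frobenius is semisimple on `H²(X)` if and only if the nilpotent part `n` of its Jordan decomposition on
`H` vanishes. We prove that on average over all `A` and `B` the rank of `n ^ R` (of `u ^ R` for ANY
nilpotent `u` commuting with Frobenius) is at most `C R^(-c R) N`, for every `R ≥ 1`, with constants
independent of `q`, `N` and `f`; and that `n ^ R = 0` for all but `C R^(-c R) N q^(2 N)` pairs. The same
is proved for the family of all elliptic surfaces `y² = x³ + A x + B`, `deg A < 4 d`, `deg B < 6 d`.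

The cohomological interpretation (Grothendieck, Deligne, Weil) enters through the structure
`FrobeniusModule`: it lists the properties of the eigenvalues of Frobenius which are used.
-/

set_option autoImplicit false

namespace Pool.Agent.Results.MP_1fe969_ag.NilpotentPartOnAverage

open Polynomial

/-- The affine points of the curve `y² = f(x) + A x + B` over the residue ring `F[t] ⧸ P`. -/
def affinePoints {F : Type} [Field F] (f : F[X][X]) (A B P : F[X]) :
    Set ((F[X] ⧸ Ideal.span {P}) × (F[X] ⧸ Ideal.span {P})) :=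
  {z | z.2 ^ 2 = (f.map (Ideal.Quotient.mk (Ideal.span {P}))).eval z.1 +
    Ideal.Quotient.mk (Ideal.span {P}) A * z.1 + Ideal.Quotient.mk (Ideal.span {P}) B}

/-- The trace of Frobenius of the curve `y² = f(x) + A x + B` at the place `P`: for `f` monic of odd
degree there is one point at infinity, and the trace is `q_P + 1` minus the number of all points. -/
noncomputable def frobeniusTrace {F : Type} [Field F] (f : F[X][X]) (A B P : F[X]) : ℝ :=
  (Nat.card F : ℝ) ^ P.natDegree - (affinePoints f A B P).ncard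

/-- The monic irreducible polynomials of degree `e` outside a finite set. -/
def goodPlaces {F : Type} [Field F] (bad : Finset F[X]) (e : ℕ) : Set F[X] :=
  {P | P.Monic ∧ Irreducible P ∧ P.natDegree = e ∧ P ∉ bad}

/-- Frobenius on the cohomology of the surface `X → ℙ¹` fibred in curves `y² = f(x) + A x + B`, `f` monic
of degree `2 g + 1`, with a nilpotent endomorphism commuting with it. The number
`∑ α i ^ n + ∑ β j ^ n` is the trace of the `n`-th power of Frobenius on `H¹_c(U, R¹π_* ℚ_ℓ)`, `U` the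
complement of `bad` in the affine line, the `α i` being the eigenvalues on the quotient
`H = H¹(ℙ¹, j_* R¹π_* ℚ_ℓ)`, which is pure of weight two and a subspace of `H²(X)`; and `formula` is the
trace formula. The space `H` enters through the matrix `Φ` of Frobenius, in a basis, with coefficients
embedded in `ℂ`. -/
structure FrobeniusModule {F : Type} [Field F] (f : F[X][X]) (A B : F[X]) (g : ℕ) (K : ℝ) where
  /-- the dimension of the part `H` of weight two -/
  D : ℕ
  /-- the eigenvalues of Frobenius on `H` -/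
  α : Fin D → ℂ
  /-- the number of the other eigenvalues -/
  D' : ℕ
  /-- the other eigenvalues -/
  β : Fin D' → ℂ
  /-- the places of bad reduction -/
  bad : Finset F[X]
  /-- the eigenvalues of Frobenius at the good places -/
  loc : F[X] → Fin (2 * g) → ℂ
  size : (D : ℝ) ≤ K ∧ (D' : ℝ) ≤ K ∧ ∑ P ∈ bad, (P.natDegree : ℝ) ≤ K
  norm_α : ∀ i, ‖α i‖ = Nat.card F
  norm_β : ∀ j, ‖β j‖ ≤ √(Nat.card F)
  norm_loc : ∀ P, P.Monic → Irreducible P → P ∉ bad → ∀ i, ‖loc P i‖ ≤ √(Nat.card F) ^ P.natDegree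
  sum_loc : ∀ P, P.Monic → Irreducible P → P ∉ bad → ∑ i, loc P i = (frobeniusTrace f A B P : ℂ)
  formula : ∀ n : ℕ, 1 ≤ n → ∑ i, α i ^ n + ∑ j, β j ^ n =
    -∑ e ∈ n.divisors, ∑ᶠ P ∈ goodPlaces bad e, (e : ℂ) * ∑ i, loc P i ^ (n / e)
  /-- the matrix of Frobenius on `H` -/
  Φ : Matrix (Fin D) (Fin D) ℂ
  charpoly_Φ : Φ.charpoly = ∏ i, (X - C (α i))
  /-- a nilpotent endomorphism of `H` -/
  nil : Matrix (Fin D) (Fin D) ℂ
  isNilpotent_nil : IsNilpotent nil
  commute_nil : Commute Φ nil

/-- the translation of the data -/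
noncomputable def FrobeniusModule.toED {F : Type} [Field F] [Fintype F] {f : F[X][X]} {A B : F[X]} {g : ℕ}
    {K : ℝ} (E : FrobeniusModule f A B g K) : Pool.Agent.N430.RT.ED f A B (2 * g) K where
  D := E.D
  α := E.α
  D' := E.D'
  β := E.β
  bad := E.bad
  loc := E.loc
  hD := E.size.1
  hD' := E.size.2.1
  hbad := E.size.2.2
  hα := fun i => by rw [E.norm_α i, Nat.card_eq_fintype_card]
  hβ := fun j => by
    have := E.norm_β j
    rwa [Nat.card_eq_fintype_card] at this
  hloc := fun P h1 h2 h3 i => by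
    have := E.norm_loc P h1 h2 h3 i
    rwa [Nat.card_eq_fintype_card] at this
  htr := fun P h1 h2 h3 => by
    rw [E.sum_loc P h1 h2 h3]
    unfold frobeniusTrace
    rw [Nat.card_eq_fintype_card]
    rfl
  hform := fun n hn => by
    classical
    rw [E.formula n hn]
    congr 1
    refine Finset.sum_congr rfl fun e _ => ?_
    have h1 : goodPlaces E.bad e =
        (((Pool.Agent.N430.BP.FF.IR F e).filter (· ∉ E.bad) : Finset F[X]) : Set F[X]) := by
      ext P
      unfold goodPlaces
      rw [Finset.mem_coe, Finset.mem_filter, Pool.Agent.N430.BP.FF.mem_IR]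
      constructor
      · rintro ⟨a, b, c, d⟩
        exact ⟨⟨a, b, c⟩, d⟩
      · rintro ⟨⟨a, b, c⟩, d⟩
        exact ⟨a, b, c, d⟩
    rw [h1, finsum_mem_coe_finset]

/-- The sum of the dimensions of the generalized eigenspaces of dimension at least `R` of Frobenius. -/
noncomputable def FrobeniusModule.large {F : Type} [Field F] {f : F[X][X]} {A B : F[X]} {g : ℕ} {K : ℝ}
    (E : FrobeniusModule f A B g K) (R : ℕ) : ℕ :=
  {i | R ≤ {j | E.α j = E.α i}.ncard}.ncard

/-- For a finite set `S` of pairs `(A, B)`: the total dimension of the generalized eigenspaces of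
dimension at least `R`, the total rank of the `R`-th powers of the nilpotent endomorphisms, and the
number of the pairs for which this power is not zero, are at most `b`. -/
structure SmallOn {F : Type} [Field F] {f : F[X][X]} {g : ℕ} {K : ℝ} (S : Finset (F[X] × F[X]))
    (E : ∀ v : S, FrobeniusModule f v.1.1 v.1.2 g K) (R : ℕ) (b : ℝ) : Prop where
  eigenspaces : (∑ v, ((E v).large R : ℝ)) ≤ b
  ranks : (∑ v, (((E v).nil ^ R).rank : ℝ)) ≤ b
  exceptions : ({v | (E v).nil ^ R ≠ 0}.ncard : ℝ) ≤ b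

lemma mult_card {D : ℕ} (α : Fin D → ℂ) (R : ℕ) :
    {i | R ≤ {j | α j = α i}.ncard}.ncard =
      (open Classical in Finset.univ.filter fun i =>
        R ≤ (Finset.univ.filter fun j => α j = α i).card : Finset (Fin D)).card := by
  classical
  have h1 : ∀ i, {j | α j = α i}.ncard = (Finset.univ.filter fun j => α j = α i).card := by
    intro i
    rw [← Set.ncard_coe_finset]
    congr 1
    ext j
    simp
  simp_rw [h1]
  rw [← Set.ncard_coe_finset]
  congr 1
  ext i
  simp

lemma large_eq {F : Type} [Field F] [Fintype F] {f : F[X][X]} {A B : F[X]} {g : ℕ} {K : ℝ}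
    (E : FrobeniusModule f A B g K) (R : ℕ) :
    E.large R = (Pool.Agent.N430.RT.bigIdx E.toED R).card := mult_card E.α R

lemma rank_le {F : Type} [Field F] [Fintype F] {f : F[X][X]} {A B : F[X]} {g : ℕ} {K : ℝ}
    (E : FrobeniusModule f A B g K) (R : ℕ) : (E.nil ^ R).rank ≤ E.large R := by
  classical
  have h1 := Pool.Agent.N430.RT.rank_pow_le (Matrix.toLin' E.Φ) (Matrix.toLin' E.nil) (α := E.α)
    (by rw [Matrix.charpoly_toLin', E.charpoly_Φ])
    (by
      have := E.commute_nil.map (Matrix.toLinAlgEquiv' (R := ℂ) (n := Fin E.D))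
      exact this)
    (by
      obtain ⟨m, hm⟩ := E.isNilpotent_nil
      refine ⟨m, ?_⟩
      rw [← Matrix.toLin'_pow, hm, map_zero]) R
  have h2 : (E.nil ^ R).rank = Module.finrank ℂ (LinearMap.range ((Matrix.toLin' E.nil) ^ R)) := by
    rw [← Matrix.toLin'_pow]
    rfl
  rw [h2]
  refine h1.trans ?_
  unfold FrobeniusModule.large
  rw [mult_card]
  refine Finset.card_le_card fun i hi => ?_
  rw [Finset.mem_filter] at hi ⊢
  exact ⟨Finset.mem_univ _, (Nat.le_succ R).trans hi.2⟩

lemma rank_zero {D : ℕ} {M : Matrix (Fin D) (Fin D) ℂ} (h : M.rank = 0) : M = 0 := by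
  have h1 : LinearMap.range M.mulVecLin = ⊥ := Submodule.finrank_eq_zero.1 h
  rw [LinearMap.range_eq_bot] at h1
  have h2 : Matrix.toLin' M = Matrix.toLin' 0 := by
    rw [map_zero]
    exact h1
  exact (Matrix.toLin' (R := ℂ)).injective h2

lemma small_of {F : Type} [Field F] [Fintype F] {f : F[X][X]} {g : ℕ} {K : ℝ} (S : Finset (F[X] × F[X]))
    (E : ∀ v : S, FrobeniusModule f v.1.1 v.1.2 g K) (R : ℕ) (b : ℝ)
    (h : (∑ v, ((Pool.Agent.N430.RT.bigIdx (E v).toED R).card : ℝ)) ≤ b) : SmallOn S E R b := by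
  classical
  have h1 : (∑ v, ((E v).large R : ℝ)) ≤ b := by
    refine le_trans (le_of_eq ?_) h
    exact Finset.sum_congr rfl fun v _ => by rw [large_eq]
  have h2 : (∑ v, (((E v).nil ^ R).rank : ℝ)) ≤ b := by
    refine (Finset.sum_le_sum fun v _ => ?_).trans h1
    exact_mod_cast rank_le (E v) R
  refine ⟨h1, h2, le_trans ?_ h2⟩
  have h3 : {v | (E v).nil ^ R ≠ 0} = ((Finset.univ.filter fun v => (E v).nil ^ R ≠ 0 :
      Finset S) : Set S) := by
    ext v
    simp
  rw [h3, Set.ncard_coe_finset, Finset.card_eq_sum_ones]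
  push_cast
  rw [Finset.sum_filter]
  refine Finset.sum_le_sum fun v _ => ?_
  split_ifs with h4
  · have h5 : 1 ≤ ((E v).nil ^ R).rank := by
      rw [Nat.one_le_iff_ne_zero]
      intro h6
      exact h4 (rank_zero h6)
    exact_mod_cast h5
  · positivity

/-- **The nilpotent part of Frobenius is small on average.** -/
theorem result :
    (∀ g : ℕ, 1 ≤ g → ∀ κ : ℝ, 1 ≤ κ → ∃ c C : ℝ, 0 < c ∧ 0 < C ∧
      ∀ (F : Type) [Field F] [Finite F], ringChar F ≠ 2 → ∀ N : ℕ, 1 ≤ N →
      ∀ f : F[X][X], f.Monic → f.natDegree = 2 * g + 1 → ∀ S : Finset (F[X] × F[X]),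
      (∀ v ∈ S, v.1.degree < N ∧ v.2.degree < N) →
      ∀ (E : ∀ v : S, FrobeniusModule f v.1.1 v.1.2 g (κ * N)), ∀ R : ℕ, 1 ≤ R →
        SmallOn S E R (C * (R : ℝ) ^ (-(c * R)) * N * (Nat.card F : ℝ) ^ (2 * N))) ∧
    ∃ c C : ℝ, 0 < c ∧ 0 < C ∧
      ∀ (F : Type) [Field F] [Finite F], ringChar F ≠ 2 → ∀ d : ℕ, 1 ≤ d →
      ∀ S : Finset (F[X] × F[X]), (∀ v ∈ S, v.1.degree < 4 * d ∧ v.2.degree < 6 * d) →
      ∀ (E : ∀ v : S, FrobeniusModule (X ^ 3 : F[X][X]) v.1.1 v.1.2 1 (28 * d)), ∀ R : ℕ, 1 ≤ R →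
        SmallOn S E R (C * (R : ℝ) ^ (-(c * R)) * d * (Nat.card F : ℝ) ^ (10 * d)) := by
  classical
  refine ⟨fun g hg κ hκ => ?_, ?_⟩
  · obtain ⟨c, C, hc, hC, H⟩ := Pool.Agent.N430.RT.mult_avg (2 * g + 1) (2 * g) (by omega)
      ⟨g, rfl⟩ (by omega) hκ
    refine ⟨c, C, hc, hC, fun F _ _ h2 N hN f hf hfd S hS E R hR => ?_⟩
    have : Fintype F := Fintype.ofFinite F
    apply small_of
    have h1 := H F h2 N hN f hf hfd R hR S (fun v => (⟨v.1.1, mem_degreeLT.2 (hS v.1 v.2).1⟩,
      ⟨v.1.2, mem_degreeLT.2 (hS v.1 v.2).2⟩)) (by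
        intro v w hvw
        apply Subtype.ext
        exact Prod.ext (congrArg (fun z => (z.1 : F[X])) hvw) (congrArg (fun z => (z.2 : F[X])) hvw))
      (fun v => (E v).toED)
    rw [Nat.card_eq_fintype_card]
    exact h1
  · obtain ⟨c, C, hc, hC, H⟩ := Pool.Agent.N430.RT.mult_avg_ell
    refine ⟨c, C, hc, hC, fun F _ _ h2 d hd S hS E R hR => ?_⟩
    have : Fintype F := Fintype.ofFinite F
    apply small_of
    have h1 := H F h2 d hd R hR S (fun v => v.1) Subtype.val_injective (fun v => hS v.1 v.2)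
      (fun v => (E v).toED)
    rw [Nat.card_eq_fintype_card]
    exact h1

end Pool.Agent.Results.MP_1fe969_ag.NilpotentPartOnAverage
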