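import Mathlib
import Pool.Agent.N144.OF.Main2

/-!
# Semisimplicity of Frobenius on `H^2` for the reductions of a surface, from one place

Let `X` be a smooth projective surface over the number field `K`. As a representation of `G_K`,
`H^2(X_K̄, ℚ_ℓ(1)) = (N ⊗ ℚ_ℓ) ⊕ T_ℓ`, where `N = NS(X_K̄) ⊗ ℚ`, on which `G_K` acts through a finite group,
and `T_ℓ` is the orthogonal complement. At the places `v ∉ S` (of good reduction) the
characteristic polynomial `P_v` of the geometric Frobenius on `T_ℓ` is in `ℚ[X]` and does not depend on `ℓ`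
(Deligne), and the second cohomology of the reduction `X_v` is that of `X_K̄`, by smooth and proper
base change. All eigenvalues are divided by `q = N(v)` (because of the Tate twist), so the
eigenvalue `q` of Frobenius becomes `1`.

**Theorem.** There is an open normal subgroup `U` of `G_K`, that is a finite Galois extension `K'` of `K`,
with `K' = K` if the algebraic monodromy group of `T_ℓ₀` is connected for one prime number `ℓ₀`, such
that for EVERY place `v₀ ∉ S` prime to `ℓ₀`:
* if `P_{v₀}` has only simple roots, then for `100` percent of the places `v` whose Frobenius elements in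
  `Gal(K'/K)` are conjugate to that of `v₀`, for all `ℓ` and over all finite extensions of the
  residue field Frobenius is semisimple on `H^2` of `X_v`; so Q1 holds for the reductions of `X` at a set
  of places of lower density at least `1 / [K' : K]`;
* if moreover no quotient of two different roots of `P_{v₀}` is a root of unity, the same is true for
  `100` percent of the places which split completely in `K'`, and of the places whose Frobenius
  elements in `Gal(K'/K)` are conjugate to powers of that of `v₀`;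
* if at most one of the roots of `P_{v₀}` (with multiplicity) is a root of unity, the same is true for
  the weak form of Q1 (semisimplicity for the eigenvalue `q`, over all finite extensions of the
  residue field).

So one zeta function, of one reduction, is sufficient. In the first statement a relation between the
eigenvalues at `v₀` is allowed. The third statement applies in particular if the dimension
of `T_ℓ` is odd, when `1` or `-1` is always an eigenvalue. No assumption on the image of the Galois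
group is made, and the Hodge numbers are arbitrary (for `h^{2,0} > 1` the motive is not known to be of
abelian type, and nothing is known on its Mumford-Tate group).

The proof. The discriminant of the characteristic polynomial and the multiplicity of the roots of
unity are given by polynomial class functions on `G_K`. By the Noetherian property there is `U`
such that on every coset of `U` a polynomial function is zero or its zeros have Haar measure zero;
Chebotarev's theorem gives the densities. Roots of unity which are roots of `P_v` have bounded order.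
-/

set_option autoImplicit false

namespace Pool.Agent.Results.MP_1fe969_ag.ReductionsFromOnePlace

open Polynomial Filter Topology NumberField IsDedekindDomain

/-- the absolute Galois group of `K`, with its profinite (Krull) topology -/
abbrev AbsoluteGaloisGroup (K : Type) [Field K] : Type := Gal(AlgebraicClosure K/K)

/-- `σ` is an (arithmetic) Frobenius element at the prime `v` of the number field `K`: for some prime
`Q` of the algebraic closure above `v` it acts on the residue field as `x ↦ x ^ N(v)` -/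
def IsFrobenius {K : Type} [Field K] [NumberField K] (v : HeightOneSpectrum (𝓞 K))
    (σ : AbsoluteGaloisGroup K) : Prop :=
  ∃ Q : Ideal (𝓞 (AlgebraicClosure K)), Q.IsMaximal ∧
    Q.comap (algebraMap (𝓞 K) (𝓞 (AlgebraicClosure K))) = v.asIdeal ∧
    ∀ x : 𝓞 (AlgebraicClosure K), σ • x - x ^ Ideal.absNorm v.asIdeal ∈ Q

variable {K : Type} [Field K] [NumberField K] {m n : ℕ}

/-- `τ` is the representation on `T_ℓ`: it is continuous and for all `v ∉ S` which are prime to `ℓ`
the characteristic polynomial of the geometric Frobenius elements `σ⁻¹` (`σ` arithmetic) at `v` is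
`P v` -/
def IsTranscendentalPart (S : Set (HeightOneSpectrum (𝓞 K))) (P : HeightOneSpectrum (𝓞 K) → ℚ[X])
    (ℓ : ℕ) [Fact ℓ.Prime] (τ : AbsoluteGaloisGroup K →* Matrix (Fin n) (Fin n) ℚ_[ℓ]) : Prop :=
  Continuous τ ∧ ∀ v ∉ S, (ℓ : 𝓞 K) ∉ v.asIdeal → ∀ σ : AbsoluteGaloisGroup K, IsFrobenius v σ →
    (τ σ⁻¹).charpoly = (P v).map (algebraMap ℚ ℚ_[ℓ])

/-- the matrix of `σ` on `H^2(ℚ_ℓ(1)) = (N ⊗ ℚ_ℓ) ⊕ T_ℓ` -/
noncomputable def onH2 (α : AbsoluteGaloisGroup K →* Matrix (Fin m) (Fin m) ℚ) {ℓ : ℕ} [Fact ℓ.Prime]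
    (τ : AbsoluteGaloisGroup K →* Matrix (Fin n) (Fin n) ℚ_[ℓ]) (σ : AbsoluteGaloisGroup K) :
    Matrix (Fin m ⊕ Fin n) (Fin m ⊕ Fin n) ℚ_[ℓ] :=
  Matrix.fromBlocks ((α σ).map (algebraMap ℚ ℚ_[ℓ])) 0 0 (τ σ)

/-- **Q1 for the reduction at `v`**: for all `ℓ` prime to `v` and all `k` the `k`-th power of the geometric
Frobenius is semisimple on `H^2(ℚ_ℓ(1))` -/
def IsSemisimpleAt (α : AbsoluteGaloisGroup K →* Matrix (Fin m) (Fin m) ℚ)
    (τ : ∀ (ℓ : ℕ) [Fact ℓ.Prime], AbsoluteGaloisGroup K →* Matrix (Fin n) (Fin n) ℚ_[ℓ])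
    (v : HeightOneSpectrum (𝓞 K)) : Prop :=
  ∀ (ℓ : ℕ) [Fact ℓ.Prime], (ℓ : 𝓞 K) ∉ v.asIdeal → ∀ σ : AbsoluteGaloisGroup K, IsFrobenius v σ →
    ∀ k : ℕ, Module.End.IsSemisimple (Matrix.toLin' (onH2 α (τ ℓ) σ⁻¹) ^ k)

/-- **the weak form of Q1 at `v`**: for all `ℓ` prime to `v` and all `k > 0` the generalized eigenspace of the
`k`-th power of the geometric Frobenius for the eigenvalue `1` (on `H^2(ℚ_ℓ(1))`) is the eigenspace -/
def IsWeaklySemisimpleAt (α : AbsoluteGaloisGroup K →* Matrix (Fin m) (Fin m) ℚ)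
    (τ : ∀ (ℓ : ℕ) [Fact ℓ.Prime], AbsoluteGaloisGroup K →* Matrix (Fin n) (Fin n) ℚ_[ℓ])
    (v : HeightOneSpectrum (𝓞 K)) : Prop :=
  ∀ (ℓ : ℕ) [Fact ℓ.Prime], (ℓ : 𝓞 K) ∉ v.asIdeal → ∀ σ : AbsoluteGaloisGroup K, IsFrobenius v σ →
    ∀ k : ℕ, 0 < k →
      Module.End.maxGenEigenspace (Matrix.toLin' (onH2 α (τ ℓ) σ⁻¹) ^ k) 1 =
        Module.End.eigenspace (Matrix.toLin' (onH2 α (τ ℓ) σ⁻¹) ^ k) 1

/-- the algebraic monodromy group is connected: a polynomial relation between the matrix entries which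
holds on an open subgroup holds everywhere -/
def HasConnectedMonodromy {ℓ : ℕ} [Fact ℓ.Prime]
    (τ : AbsoluteGaloisGroup K →* Matrix (Fin n) (Fin n) ℚ_[ℓ]) : Prop :=
  ∀ (F : MvPolynomial (Fin n × Fin n) ℚ_[ℓ]) (U : Subgroup (AbsoluteGaloisGroup K)),
    IsOpen (U : Set (AbsoluteGaloisGroup K)) →
    (∀ u ∈ U, MvPolynomial.eval (fun x => τ u x.1 x.2) F = 0) →
    ∀ g, MvPolynomial.eval (fun x => τ g x.1 x.2) F = 0

/-- some Frobenius element at `v` has a conjugate in the coset `γ U` -/
def FrobeniusInCoset (U : Subgroup (AbsoluteGaloisGroup K)) (γ : AbsoluteGaloisGroup K)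
    (v : HeightOneSpectrum (𝓞 K)) : Prop :=
  ∃ σ : AbsoluteGaloisGroup K, (∃ t : AbsoluteGaloisGroup K, γ⁻¹ * (t * σ * t⁻¹) ∈ U) ∧ IsFrobenius v σ

/-- some Frobenius element at `v` is in `U` -/
def FrobeniusIn (U : Subgroup (AbsoluteGaloisGroup K)) (v : HeightOneSpectrum (𝓞 K)) : Prop :=
  ∃ σ ∈ U, IsFrobenius v σ

/-- the number of the places `v` with `N(v) ≤ N` and the property `A`, divided by `π(N)` -/
noncomputable def proportion (A : HeightOneSpectrum (𝓞 K) → Prop) (N : ℕ) : ℝ :=
  (Nat.card {v : HeightOneSpectrum (𝓞 K) // Ideal.absNorm v.asIdeal ≤ N ∧ A v} : ℝ) /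
    (Nat.primeCounting N : ℝ)

/-- the set of places with the property `A` has natural density zero -/
def HasDensityZero (A : HeightOneSpectrum (𝓞 K) → Prop) : Prop := Tendsto (proportion A) atTop (𝓝 0)

/-- the set of places with the property `A` has lower natural density at least `δ` -/
def HasLowerDensityAtLeast (A : HeightOneSpectrum (𝓞 K) → Prop) (δ : ℝ) : Prop :=
  ∀ ε : ℝ, 0 < ε → ∀ᶠ N : ℕ in atTop, δ - ε ≤ proportion A N

/-- no quotient of two different (nonzero) complex roots is a root of unity -/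
def NoRootOfUnityQuotients (P : ℚ[X]) : Prop :=
  ∀ a b : ℂ, aeval a P = 0 → aeval b P = 0 → ∀ k : ℕ, 0 < k → a ^ k = b ^ k → a = b

/-- the number of the complex roots (with multiplicities) which are roots of unity -/
noncomputable def numberOfRootsOfUnity (P : ℚ[X]) : ℕ := by
  classical
  exact ((P.map (algebraMap ℚ ℂ)).roots.countP fun a => ∃ k : ℕ, 0 < k ∧ a ^ k = 1)

/-- **Semisimplicity of Frobenius on `H^2` of the reductions of a surface, from one place.** -/
theorem result (K : Type) [Field K] [NumberField K] (m n : ℕ)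
    (S : Set (HeightOneSpectrum (𝓞 K))) (hS : S.Finite) (P : HeightOneSpectrum (𝓞 K) → ℚ[X])
    (α : AbsoluteGaloisGroup K →* Matrix (Fin m) (Fin m) ℚ) (hα : (Set.range α).Finite)
    (τ : ∀ (ℓ : ℕ) [Fact ℓ.Prime], AbsoluteGaloisGroup K →* Matrix (Fin n) (Fin n) ℚ_[ℓ])
    (hτ : ∀ (ℓ : ℕ) [Fact ℓ.Prime], IsTranscendentalPart S P ℓ (τ ℓ)) (ℓ₀ : ℕ) [Fact ℓ₀.Prime] :
    ∃ U : Subgroup (AbsoluteGaloisGroup K), U.Normal ∧ IsOpen (U : Set (AbsoluteGaloisGroup K)) ∧
      (HasConnectedMonodromy (τ ℓ₀) → U = ⊤) ∧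
      ∀ v₀ ∉ S, (ℓ₀ : 𝓞 K) ∉ v₀.asIdeal → ∀ σ₀, IsFrobenius v₀ σ₀ →
        -- simple roots at one place: semisimplicity for a positive proportion
        ((P v₀).Separable →
          HasDensityZero (fun v => FrobeniusInCoset U σ₀ v ∧ ¬ IsSemisimpleAt α τ v) ∧
          HasLowerDensityAtLeast (IsSemisimpleAt α τ) (1 / (U.index : ℝ))) ∧
        -- no root of unity quotients at one place: for 100 percent after a finite extension
        ((P v₀).Separable → NoRootOfUnityQuotients (P v₀) →
          (∀ k : ℕ, 0 < k →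
            HasDensityZero (fun v => FrobeniusInCoset U (σ₀ ^ k) v ∧ ¬ IsSemisimpleAt α τ v)) ∧
          HasDensityZero (fun v => FrobeniusIn U v ∧ ¬ IsSemisimpleAt α τ v)) ∧
        -- at most one root of unity: the weak form
        (numberOfRootsOfUnity (P v₀) ≤ 1 →
          (∀ k : ℕ, 0 < k →
            HasDensityZero (fun v => FrobeniusInCoset U (σ₀ ^ k) v ∧ ¬ IsWeaklySemisimpleAt α τ v)) ∧
          HasDensityZero (fun v => FrobeniusIn U v ∧ ¬ IsWeaklySemisimpleAt α τ v) ∧
          HasLowerDensityAtLeast (IsWeaklySemisimpleAt α τ) (1 / (U.index : ℝ))) := by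
  obtain ⟨U, hN, hU, hmin, htop⟩ := Pool.Agent.N144.OF.exists_sub (Pool.Agent.N144.OF.dual (τ ℓ₀))
  refine ⟨U, hN, hU, fun h => htop (Pool.Agent.N144.OF.dual_min _ h), ?_⟩
  intro v₀ hv₀ hℓv σ₀ hσ₀
  refine ⟨fun hsep => ?_, fun hsep hr => ?_, fun h1 => ?_⟩
  · exact (Pool.Agent.N144.OF.semi_main hS hα hτ ℓ₀ U hU hmin v₀ hv₀ hℓv hsep σ₀ hσ₀).1
  · exact (Pool.Agent.N144.OF.semi_main hS hα hτ ℓ₀ U hU hmin v₀ hv₀ hℓv hsep σ₀ hσ₀).2 hr
  · exact Pool.Agent.N144.OF.unity_main hS hτ ℓ₀ U hU hmin 1 le_rfl (IsWeaklySemisimpleAt α τ)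
      (fun v hv h => Pool.Agent.N144.OF.weakAt_of hα hτ hv h) v₀ hv₀ hℓv h1 σ₀ hσ₀

end Pool.Agent.Results.MP_1fe969_ag.ReductionsFromOnePlace
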