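import Mathlib
import Pool.Agent.N181.TF.Gen3

/-!
# Semisimplicity of Frobenius at the eigenvalue `q` for the pullbacks of a fibred surface

`k` is a field of characteristic different from `2`, for example a finite field, `k'` is a separable closure
of `k`, and `s = q(t)` is a polynomial of odd degree `n` with `q' ≠ 0`: `k(s) ⊂ k(t)`. Let `V` be a continuous
representation of the Galois group of `k(s)` on `ℤ₂ ^ r` which is lower triangular modulo `2` (for
example if the image modulo `2` is a `2`-group, in a suitable basis) and geometrically unramified at the
finite places which do not divide `D ∈ k[s]` (`IsRep`); the ramification at the other places is arbitrary.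
For example `V` is the Tate module of the Jacobian of the generic fibre of a fibration `X₀ → ℙ¹` over `k`, with
smooth fibres outside `D ∞`.

A class in `H¹(k'(s), V)`, modulo torsion and unramified outside `D ∞`, is a generalised invariant of order
`j` if it is killed by `j`-fold products of the operators `τ - 1`, `τ` in the Galois group of `k(s)`
(`IsGenClass`). If `k` is finite these are the classes in the kernel of `(Frob - 1) ^ j`.

**Theorem.** Suppose that there is one point of the `t`-line above each point of `D = 0`, as closed points
over `k`, with odd ramification index (`OnePt`). Then for each `j` the restriction from `k'(s)` to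
`k'(t)` is an isomorphism, up to torsion, from the generalised invariant classes of order `j` over `k(s)` to those
over `k(t)` (`GenIso`). In particular, if the generalised invariant classes are invariant over
`k(s)` then this holds over `k(t)` (`Semisimple`).

For a finite field with `q` elements and a surface `X₀ → ℙ¹` with pullback `X`: the generalised eigenspace of Frobenius for the
eigenvalue `q` in `H²` is the sum of the (semisimple) span of the components of the fibres and a multisection, and of
the part in `H¹(k'(t), V(J))`, unramified outside the bad places. So **if Frobenius is semisimple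
on the generalised eigenspace for `q` in the second cohomology of `X₀`, then this holds for `X`**, and the
part of the multiplicity of `q` which does not come from fibres and a multisection (the order of vanishing
of the L-function of the Jacobian) is the same for `X₀` and for `X`. There are infinite towers of such
coverings over finite fields.
-/

set_option autoImplicit false
set_option linter.all false

open Polynomial
open scoped Classical

namespace Pool.Agent.Results.MP_1fe969_ag.SemisimplicityOfPullbacks

open Pool.Agent.N181.TF (OnePt towers)
open Pool.Agent.N181.TF.St (NoNewGen noNewGen)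

theorem result :
    -- the theorem
    (∀ (k : Type) [Field k] (q D : k[X]), (2 : k) ≠ 0 → derivative q ≠ 0 → Odd q.natDegree →
      D ≠ 0 → OnePt D q → NoNewGen q D) ∧
    -- infinite towers over finite fields
    (∀ (k : Type) [Field k] [Finite k] (D : k[X]), (2 : k) ≠ 0 → D ≠ 0 → D.Splits → ∀ ℓ : ℕ,
      ℓ.Prime → ℓ ≠ 2 → D.natDegree < ℓ → ℓ ∣ Nat.card k - 1 → D.natDegree * ℓ < Nat.card k →
      ∃ c : k, ∀ j : ℕ, NoNewGen (X ^ ℓ ^ j + C c) D) := by
  refine ⟨?_, ?_⟩
  · intro k _ q D h2 hq hodd hD hO
    exact noNewGen h2 hq hodd hD hO
  · intro k _ _ D h2 h0 hs ℓ hℓ hℓ2 hdeg hd hq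
    obtain ⟨c, hc⟩ := towers h0 hs hℓ hℓ2 hdeg hd hq
    have hk : (ℓ : k) ≠ 0 := by
      intro h
      letI := Fintype.ofFinite k
      have hcard : Nat.card k = Fintype.card k := Nat.card_eq_fintype_card
      have hk1 : 1 < Nat.card k := by rw [hcard]; exact Fintype.one_lt_card
      have h1 : ((Nat.card k : ℕ) : k) = 0 := by
        rw [Nat.card_eq_fintype_card]
        exact FiniteField.cast_card_eq_zero k
      obtain ⟨m, hm⟩ := hd
      have h3 : Nat.card k = ℓ * m + 1 := by omega
      rw [h3, Nat.cast_add, Nat.cast_mul, h, zero_mul, zero_add, Nat.cast_one] at h1
      exact one_ne_zero h1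
    refine ⟨c, fun j => noNewGen h2 ?_ ?_ h0 (hc j)⟩
    · rw [derivative_add, derivative_C, add_zero, derivative_X_pow]
      refine mul_ne_zero (C_ne_zero.2 ?_) (pow_ne_zero _ X_ne_zero)
      rw [Nat.cast_pow]
      exact pow_ne_zero _ hk
    · rw [natDegree_X_pow_add_C]
      exact (hℓ.odd_of_ne_two hℓ2).pow

end Pool.Agent.Results.MP_1fe969_ag.SemisimplicityOfPullbacks
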